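import Pool.Agent.Helper43_LSA.Stmts

/-!
# Module CLS: sum over rooted sets
-/

namespace Helper8.LSA

open Classical Helper43.LSA
open scoped ENNReal

variable {V : Type} [Fintype V]

omit [Fintype V] in
theorem rooted_erase_of_not_mem {Γ : V → V → Prop} {R W : Finset V} {r : V} (h : Rooted Γ R W)
    (hr : r ∉ W) : Rooted Γ (R.erase r) W := by
  intro w hw
  obtain ⟨r0, h1, h2, h3⟩ := h w hw
  exact ⟨r0, Finset.mem_erase.2 ⟨fun e => hr (e ▸ h2), h1⟩, h2, h3⟩

theorem rooted_erase_of_mem {Γ : V → V → Prop} {R W : Finset V} {r : V} (h : Rooted Γ R W) :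
    Rooted Γ (R.erase r ∪ Finset.univ.filter fun w => w ≠ r ∧ Γ r w) (W.erase r) := by
  intro w hw
  obtain ⟨hwr, hwW⟩ := Finset.mem_erase.1 hw
  obtain ⟨r0, h1, h2, h3⟩ := h w hwW
  have key : ∀ b, Relation.ReflTransGen (fun a b => Γ a b ∧ b ∈ W) r0 b → b ≠ r →
      ∃ r1 ∈ R.erase r ∪ Finset.univ.filter fun w => w ≠ r ∧ Γ r w, r1 ∈ W.erase r ∧
        Relation.ReflTransGen (fun a b => Γ a b ∧ b ∈ W.erase r) r1 b := by
    intro b hb
    induction hb with
    | refl =>
      intro hne
      exact ⟨r0, Finset.mem_union_left _ (Finset.mem_erase.2 ⟨hne, h1⟩),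
        Finset.mem_erase.2 ⟨hne, h2⟩, Relation.ReflTransGen.refl⟩
    | @tail b c hb hbc ih =>
      intro hne
      have hcW : c ∈ W.erase r := Finset.mem_erase.2 ⟨hne, hbc.2⟩
      by_cases hbr : b = r
      · subst hbr
        exact ⟨c, Finset.mem_union_right _ (Finset.mem_filter.2 ⟨Finset.mem_univ _, hne, hbc.1⟩),
          hcW, Relation.ReflTransGen.refl⟩
      · obtain ⟨r1, h4, h5, h6⟩ := ih hbr
        exact ⟨r1, h4, h5, h6.tail ⟨hbc.1, hcW⟩⟩
  exact key w h3 hwr

theorem cls_aux (Γ : V → V → Prop) (Δ : ℕ) (x δ : ℝ≥0∞)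
    (hΔ : ∀ v, (Finset.univ.filter fun w => w ≠ v ∧ Γ v w).card ≤ Δ)
    (hx : x * (1 + δ) ^ Δ ≤ δ) (n : ℕ) :
    ∀ U : Finset V, U.card = n → ∀ R : Finset V,
      ∑ W ∈ Finset.univ.filter (fun W : Finset V => W ⊆ U ∧ Rooted Γ R W), x ^ W.card ≤
        (1 + δ) ^ R.card := by
  have h1δ : (1 : ℝ≥0∞) ≤ 1 + δ := le_self_add
  induction n with
  | zero =>
    intro U hU R
    have : U = ∅ := Finset.card_eq_zero.1 hU
    subst this
    have h1 : Finset.univ.filter (fun W : Finset V => W ⊆ ∅ ∧ Rooted Γ R W) ⊆ {∅} := by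
      intro W hW
      rw [Finset.mem_filter] at hW
      rw [Finset.mem_singleton]
      exact Finset.subset_empty.1 hW.2.1
    refine (Finset.sum_le_sum_of_subset h1).trans ?_
    rw [Finset.sum_singleton, Finset.card_empty, pow_zero]
    exact one_le_pow₀ h1δ
  | succ n ih =>
    intro U hU R
    by_cases hRU : ∃ r ∈ R, r ∈ U
    · obtain ⟨r, hrR, hrU⟩ := hRU
      have hUc : (U.erase r).card = n := by rw [Finset.card_erase_of_mem hrU, hU]; rfl
      have hRc : (R.erase r).card + 1 = R.card := Finset.card_erase_add_one hrR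
      rw [← Finset.sum_filter_add_sum_filter_not _ (fun W : Finset V => r ∈ W)]
      have hA : ∑ W ∈ (Finset.univ.filter
          (fun W : Finset V => W ⊆ U ∧ Rooted Γ R W)).filter (fun W => ¬ r ∈ W), x ^ W.card ≤
          (1 + δ) ^ (R.erase r).card := by
        refine le_trans (Finset.sum_le_sum_of_subset ?_) (ih (U.erase r) hUc (R.erase r))
        intro W hW
        rw [Finset.mem_filter, Finset.mem_filter] at hW
        rw [Finset.mem_filter]
        refine ⟨Finset.mem_univ _, ?_, rooted_erase_of_not_mem hW.1.2.2 hW.2⟩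
        exact Finset.subset_erase.2 ⟨hW.1.2.1, hW.2⟩
      have hB : ∑ W ∈ (Finset.univ.filter
          (fun W : Finset V => W ⊆ U ∧ Rooted Γ R W)).filter (fun W => r ∈ W), x ^ W.card ≤
          x * (1 + δ) ^ ((R.erase r).card + Δ) := by
        have e1 : ∀ W ∈ (Finset.univ.filter
            (fun W : Finset V => W ⊆ U ∧ Rooted Γ R W)).filter (fun W => r ∈ W),
            x ^ W.card = x * x ^ (W.erase r).card := by
          intro W hW
          have h2 := (Finset.mem_filter.1 hW).2
          rw [← Finset.card_erase_add_one h2, pow_succ, mul_comm]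
        rw [Finset.sum_congr rfl e1, ← Finset.mul_sum]
        refine mul_le_mul_right ?_ x
        have e2 : ∑ W ∈ (Finset.univ.filter
            (fun W : Finset V => W ⊆ U ∧ Rooted Γ R W)).filter (fun W => r ∈ W),
            x ^ (W.erase r).card =
            ∑ W' ∈ ((Finset.univ.filter
            (fun W : Finset V => W ⊆ U ∧ Rooted Γ R W)).filter (fun W => r ∈ W)).image
              (fun W => W.erase r), x ^ W'.card := by
          rw [Finset.sum_image]
          intro W hW W' hW' he
          have h2 := (Finset.mem_filter.1 hW).2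
          have h3 := (Finset.mem_filter.1 hW').2
          have he' : W.erase r = W'.erase r := he
          rw [← Finset.insert_erase h2, he', Finset.insert_erase h3]
        rw [e2]
        refine le_trans (Finset.sum_le_sum_of_subset ?_)
          ((ih (U.erase r) hUc (R.erase r ∪ Finset.univ.filter fun w => w ≠ r ∧ Γ r w)).trans ?_)
        · intro W' hW'
          obtain ⟨W, hW, rfl⟩ := Finset.mem_image.1 hW'
          rw [Finset.mem_filter, Finset.mem_filter] at hW
          rw [Finset.mem_filter]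
          refine ⟨Finset.mem_univ _, Finset.erase_subset_erase _ hW.1.2.1,
            rooted_erase_of_mem hW.1.2.2⟩
        · refine pow_le_pow_right₀ h1δ ?_
          exact (Finset.card_union_le _ _).trans (Nat.add_le_add_left (hΔ r) _)
      refine (add_le_add hB hA).trans ?_
      rw [← hRc, pow_add, pow_succ]
      calc x * ((1 + δ) ^ (R.erase r).card * (1 + δ) ^ Δ) + (1 + δ) ^ (R.erase r).card
          = (1 + δ) ^ (R.erase r).card * (x * (1 + δ) ^ Δ + 1) := by ring
        _ ≤ (1 + δ) ^ (R.erase r).card * (δ + 1) :=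
          mul_le_mul_right (add_le_add_left hx 1) _
        _ = (1 + δ) ^ (R.erase r).card * (1 + δ) := by rw [add_comm δ 1]
    · have h1 : Finset.univ.filter (fun W : Finset V => W ⊆ U ∧ Rooted Γ R W) ⊆ {∅} := by
        intro W hW
        rw [Finset.mem_filter] at hW
        rw [Finset.mem_singleton]
        by_contra hne
        obtain ⟨w, hw⟩ := Finset.nonempty_iff_ne_empty.2 hne
        obtain ⟨r0, h1, h2, _⟩ := hW.2.2 w hw
        exact hRU ⟨r0, h1, hW.2.1 h2⟩
      refine (Finset.sum_le_sum_of_subset h1).trans ?_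
      rw [Finset.sum_singleton, Finset.card_empty, pow_zero]
      exact one_le_pow₀ h1δ

theorem cls : ClsStmt := by
  intro V _ Γ Δ x δ hΔ hx R
  have h := cls_aux Γ Δ x δ hΔ hx (Finset.univ : Finset V).card Finset.univ rfl R
  simpa using h

end Helper8.LSA
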