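import Pool.Agent.Helper43_LSA.Stmts

/-!
# Module ENUM: sum over unions of pieces
-/

namespace Helper8.LSA

open Classical Helper43.LSA
open scoped ENNReal

variable {V : Type} [Fintype V]

/-- `(1 + δ)^Δ ≤ e` if `Δ δ ≤ 1`. -/
theorem one_add_dl_pow_le (D Δ : ℕ) (h : Δ + 1 ≤ (D + 1) ^ 4) :
    (1 + dl D) ^ Δ ≤ ENNReal.ofReal (Real.exp 1) := by
  have hpos : (0 : ℝ) < ((D : ℝ) + 1) ^ 4 := by positivity
  have e1 : dl D = ENNReal.ofReal ((((D : ℝ) + 1) ^ 4)⁻¹) := by
    unfold dl
    rw [ENNReal.ofReal_inv_of_pos hpos, ENNReal.ofReal_pow (by positivity),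
      ENNReal.ofReal_add (by positivity) (by norm_num), ENNReal.ofReal_natCast, ENNReal.ofReal_one]
  have e2 : (1 : ℝ≥0∞) + dl D = ENNReal.ofReal (1 + (((D : ℝ) + 1) ^ 4)⁻¹) := by
    rw [e1, ENNReal.ofReal_add (by norm_num) (by positivity), ENNReal.ofReal_one]
  rw [e2, ← ENNReal.ofReal_pow (by positivity)]
  apply ENNReal.ofReal_le_ofReal
  have h1 : 1 + (((D : ℝ) + 1) ^ 4)⁻¹ ≤ Real.exp ((((D : ℝ) + 1) ^ 4)⁻¹) := by
    rw [add_comm]; exact Real.add_one_le_exp _
  calc (1 + (((D : ℝ) + 1) ^ 4)⁻¹) ^ Δ ≤ (Real.exp ((((D : ℝ) + 1) ^ 4)⁻¹)) ^ Δ :=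
        pow_le_pow_left₀ (by positivity) h1 _
    _ = Real.exp (Δ * (((D : ℝ) + 1) ^ 4)⁻¹) := by rw [← Real.exp_nat_mul]
    _ ≤ Real.exp 1 := by
        apply Real.exp_le_exp.2
        rw [← div_eq_mul_inv, div_le_one hpos]
        have : ((Δ + 1 : ℕ) : ℝ) ≤ (((D + 1) ^ 4 : ℕ) : ℝ) := by exact_mod_cast h
        push_cast at this
        linarith

theorem enum (hC : ClsStmt) (hG : GeoStmt) : EnumStmt := by
  intro V _ G D hreg φ hφ R F 𝒯 h𝒯
  -- the sum over nonempty subsets of a closed neighbourhood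
  set x : ℝ≥0∞ := ∑ s ∈ Finset.Icc 1 (D + 1), ((D + 1).choose s : ℝ≥0∞) * φ s with hx
  let t : V → Finset (Finset V) := fun w => (cn G w).powerset.filter fun P => P.Nonempty
  have ht : ∀ w, ∑ P ∈ t w, φ P.card = x := by
    intro w
    have h1 : ∑ P ∈ t w, φ P.card =
        ∑ P ∈ (cn G w).powerset, (fun s => if s = 0 then 0 else φ s) P.card := by
      simp only [t]
      rw [Finset.sum_filter]
      refine Finset.sum_congr rfl fun P _ => ?_
      by_cases hP : P = ∅
      · subst hP; simp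
      · have h2 : P.Nonempty := Finset.nonempty_iff_ne_empty.2 hP
        have h3 : P.card ≠ 0 := Finset.card_ne_zero.2 h2
        simp [h2, h3]
    rw [h1, Finset.sum_powerset_apply_card (fun s => if s = 0 then 0 else φ s) (x := cn G w),
      card_cn hreg w, hx, Finset.sum_range_succ', ← Finset.sum_image (s := Finset.range (D + 1))
        (g := fun i => i + 1) (f := fun s => (D + 1).choose s • (if s = 0 then 0 else φ s))
        (by intro a _ b _ h; simpa using h)]
    have h4 : (Finset.range (D + 1)).image (fun i => i + 1) = Finset.Icc 1 (D + 1) := by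
      ext s
      simp only [Finset.mem_image, Finset.mem_range, Finset.mem_Icc]
      constructor
      · rintro ⟨a, ha, rfl⟩; omega
      · intro h; exact ⟨s - 1, by omega, by omega⟩
    rw [h4]
    simp only [if_true, smul_zero, add_zero]
    refine Finset.sum_congr rfl fun s hs => ?_
    have : s ≠ 0 := by have := (Finset.mem_Icc.1 hs).1; omega
    rw [if_neg this, nsmul_eq_mul]
  -- codes
  have hch : ∀ T : Finset V, ∃ c : Finset V × (V → Finset V), T ∈ 𝒯 →
      Pieces G R T c.1 c.2 ∧ F T ≤ ∏ w ∈ c.1, φ (c.2 w).card := by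
    intro T
    by_cases hT : T ∈ 𝒯
    · obtain ⟨W, Gp, h⟩ := h𝒯 T hT
      exact ⟨(W, Gp), fun _ => h⟩
    · exact ⟨(∅, fun _ => ∅), fun h => (hT h).elim⟩
  choose c hc using hch
  have hmaps : ∀ T ∈ 𝒯, (c T).1 ∈ Finset.univ.filter
      (fun W : Finset V => Rooted (Near G 4) R W) := by
    intro T hT
    rw [Finset.mem_filter]
    exact ⟨Finset.mem_univ _, (hc T hT).1.rooted⟩
  rw [← Finset.sum_fiberwise_of_maps_to hmaps]
  have hfib : ∀ W : Finset V, ∑ T ∈ 𝒯 with (c T).1 = W, F T ≤ x ^ W.card := by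
    intro W
    have h1 : ∑ T ∈ 𝒯 with (c T).1 = W, F T ≤
        ∑ T ∈ 𝒯 with (c T).1 = W, ∏ w ∈ W.attach, φ ((c T).2 w.1).card := by
      refine Finset.sum_le_sum fun T hT => ?_
      rw [Finset.mem_filter] at hT
      have h2 := (hc T hT.1).2
      rw [hT.2] at h2
      rw [Finset.prod_attach W (fun w => φ ((c T).2 w).card)]
      exact h2
    refine h1.trans ?_
    have h2 : ∑ T ∈ 𝒯 with (c T).1 = W, ∏ w ∈ W.attach, φ ((c T).2 w.1).card =
        ∑ p ∈ (𝒯.filter fun T => (c T).1 = W).image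
          (fun T => (fun (w : V) (_ : w ∈ W) => (c T).2 w)),
          ∏ w ∈ W.attach, φ (p w.1 w.2).card := by
      rw [Finset.sum_image]
      intro T hT T' hT' he
      have hT1 := Finset.mem_filter.1 (Finset.mem_coe.1 hT)
      have hT1' := Finset.mem_filter.1 (Finset.mem_coe.1 hT')
      have e1 := (hc T hT1.1).1.union
      have e2 := (hc T' hT1'.1).1.union
      rw [hT1.2] at e1
      rw [hT1'.2] at e2
      rw [← e1, ← e2]
      refine Finset.biUnion_congr rfl fun w hw => ?_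
      have := congrFun (congrFun he w) hw
      exact this
    rw [h2]
    calc ∑ p ∈ (𝒯.filter fun T => (c T).1 = W).image
          (fun T => (fun (w : V) (_ : w ∈ W) => (c T).2 w)),
          ∏ w ∈ W.attach, φ (p w.1 w.2).card
        ≤ ∑ p ∈ W.pi t, ∏ w ∈ W.attach, φ (p w.1 w.2).card := by
          refine Finset.sum_le_sum_of_subset ?_
          intro p hp
          obtain ⟨T, hT, rfl⟩ := Finset.mem_image.1 hp
          rw [Finset.mem_filter] at hT
          rw [Finset.mem_pi]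
          intro w hw
          have hP := (hc T hT.1).1
          rw [hT.2] at hP
          simp only [t, Finset.mem_filter, Finset.mem_powerset]
          exact ⟨hP.sub w hw, hP.ne w hw⟩
      _ = ∏ w ∈ W, ∑ P ∈ t w, φ P.card := (Finset.prod_sum W t (fun _ P => φ P.card)).symm
      _ = ∏ w ∈ W, x := Finset.prod_congr rfl fun w _ => ht w
      _ = x ^ W.card := by rw [Finset.prod_const]
      _ ≤ x ^ W.card := le_rfl
  refine (Finset.sum_le_sum fun W _ => hfib W).trans ?_
  -- the cluster sum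
  obtain ⟨Δ, hΔ⟩ : ∃ Δ, Δ + 1 = (D + 1) ^ 4 := ⟨(D + 1) ^ 4 - 1, by
    have : 0 < (D + 1) ^ 4 := by positivity
    omega⟩
  refine hC V (Near G 4) Δ x (dl D) ?_ ?_ R
  · intro v
    have h1 := hG.near4 V G D hreg v
    have h2 : (Finset.univ.filter fun w => w ≠ v ∧ Near G 4 v w) ⊆
        (Finset.univ.filter fun w => Near G 4 v w) := by
      intro w hw
      rw [Finset.mem_filter] at hw ⊢
      exact ⟨hw.1, hw.2.2⟩
    have h3 := Finset.card_le_card h2
    omega
  · have h1 := one_add_dl_pow_le D Δ hΔ.le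
    calc x * (1 + dl D) ^ Δ ≤ (ENNReal.ofReal (Real.exp (-1)) * dl D) *
          ENNReal.ofReal (Real.exp 1) := mul_le_mul' hφ h1
      _ = (ENNReal.ofReal (Real.exp (-1)) * ENNReal.ofReal (Real.exp 1)) * dl D := by ring
      _ = dl D := by
          rw [← ENNReal.ofReal_mul (Real.exp_pos _).le, ← Real.exp_add]
          simp

end Helper8.LSA
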