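import Pool.Agent.Helper43_LSA.Stmts

/-!
# Module LPA: simple properties of `Φ`
-/

namespace Helper8.LSA

open Classical Helper43.LSA
open scoped ENNReal

variable {V : Type} [Fintype V]

theorem adm_const (G : SimpleGraph V) (D : ℕ) {ε : ℝ} (T : Finset V) (hε : 0 ≤ ε) :
    Adm G D ε T (fun _ => 16) := by
  refine ⟨fun _ _ => le_rfl, fun y θ hθ => ?_⟩
  have h1 : ∑ z ∈ cn G y ∩ T, max (θ - 16) 0 = 0 := by
    refine Finset.sum_eq_zero fun z _ => ?_
    exact max_eq_right (by linarith)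
  rw [h1]
  positivity

theorem adm_lower {G : SimpleGraph V} {D : ℕ} {ε : ℝ} {T : Finset V} {α : V → ℝ}
    (h : Adm G D ε T α) {z : V} (hz : z ∈ T) : 16 - 8 * (ε * D) * Real.exp 2 ≤ α z := by
  have h1 := h.2 z 16 le_rfl
  have h2 : max (16 - α z) 0 ≤ ∑ w ∈ cn G z ∩ T, max (16 - α w) 0 :=
    Finset.single_le_sum (f := fun w => max (16 - α w) 0) (fun _ _ => le_max_right _ _)
      (Finset.mem_inter.2 ⟨self_mem_cn G z, hz⟩)
  have h3 : (16 : ℝ) / 8 = 2 := by norm_num
  rw [h3] at h1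
  have h4 : 16 - α z ≤ max (16 - α z) 0 := le_max_left _ _
  linarith

theorem bddBelow_phi (G : SimpleGraph V) (D : ℕ) (ε : ℝ) (T : Finset V) :
    BddBelow {s : ℝ | ∃ α : V → ℝ, Adm G D ε T α ∧ s = ∑ z ∈ T, α z} := by
  refine ⟨∑ z ∈ T, (16 - 8 * (ε * D) * Real.exp 2), ?_⟩
  rintro s ⟨α, hα, rfl⟩
  exact Finset.sum_le_sum fun z hz => adm_lower hα hz

theorem phi_le_of_adm {G : SimpleGraph V} {D : ℕ} {ε : ℝ} {T : Finset V} {α : V → ℝ}
    (h : Adm G D ε T α) : Phi G D ε T ≤ ∑ z ∈ T, α z :=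
  csInf_le (bddBelow_phi G D ε T) ⟨α, h, rfl⟩

theorem le_phi {G : SimpleGraph V} {D : ℕ} {ε : ℝ} {T : Finset V} (hε : 0 ≤ ε) {c : ℝ}
    (h : ∀ α, Adm G D ε T α → c ≤ ∑ z ∈ T, α z) : c ≤ Phi G D ε T := by
  refine le_csInf ⟨_, _, adm_const G D T hε, rfl⟩ ?_
  rintro s ⟨α, hα, rfl⟩
  exact h α hα

theorem Adm.mono {G : SimpleGraph V} {D : ℕ} {ε : ℝ} {T T' : Finset V} {α : V → ℝ}
    (h : Adm G D ε T' α) (hT : T ⊆ T') : Adm G D ε T α := by
  refine ⟨fun z hz => h.1 z (hT hz), fun y θ hθ => ?_⟩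
  refine le_trans ?_ (h.2 y θ hθ)
  exact Finset.sum_le_sum_of_subset_of_nonneg (Finset.inter_subset_inter_left hT)
    fun _ _ _ => le_max_right _ _

theorem lpa : LpaStmt where
  le16 := by
    intro V _ G D ε T hε
    refine (phi_le_of_adm (adm_const G D T hε)).trans (le_of_eq ?_)
    rw [Finset.sum_const, nsmul_eq_mul, mul_comm]
  union := by
    intro V _ G D ε T S u hε hS hdis
    refine le_phi hε fun α hα => ?_
    have h1 := phi_le_of_adm (Adm.mono hα Finset.subset_union_left)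
    have h2 := hα.2 u 16 le_rfl
    have h3 : ∑ z ∈ S, (16 - α z) ≤ ∑ z ∈ cn G u ∩ (T ∪ S), max (16 - α z) 0 := by
      refine le_trans (Finset.sum_le_sum fun z _ => le_max_left (16 - α z) 0) ?_
      refine Finset.sum_le_sum_of_subset_of_nonneg ?_ fun _ _ _ => le_max_right _ _
      exact Finset.subset_inter hS Finset.subset_union_right
    rw [Finset.sum_union hdis.symm]
    rw [Finset.sum_sub_distrib, Finset.sum_const, nsmul_eq_mul] at h3
    have h4 : (16 : ℝ) / 8 = 2 := by norm_num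
    rw [h4] at h2
    have h5 : 8 * (ε * D) * Real.exp 2 = 8 * Real.exp 2 * ε * D := by ring
    linarith
  ge8 := by
    intro V _ G D ε T hε hεD
    refine le_phi hε fun α hα => ?_
    have h1 : ∀ z ∈ T, (8 : ℝ) ≤ α z := by
      intro z hz
      have h2 := adm_lower hα hz
      have h3 : Real.exp 2 ≤ 8 := by
        have h4 : Real.exp 2 = Real.exp 1 * Real.exp 1 := by rw [← Real.exp_add]; norm_num
        have h5 := Real.exp_one_lt_d9
        have h6 := Real.exp_pos 1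
        rw [h4]; nlinarith
      have h7 : 8 * (ε * D) * Real.exp 2 ≤ 1 * 8 := by
        refine mul_le_mul ?_ h3 (Real.exp_pos _).le (by norm_num)
        linarith
      linarith
    calc 8 * (T.card : ℝ) = ∑ z ∈ T, (8 : ℝ) := by rw [Finset.sum_const, nsmul_eq_mul, mul_comm]
      _ ≤ ∑ z ∈ T, α z := Finset.sum_le_sum h1
  le_of_adm := by
    intro V _ G D ε T α _ h
    exact phi_le_of_adm h
  empty := by
    intro V _ G D ε hε
    apply le_antisymm
    · simpa using phi_le_of_adm (adm_const G D (∅ : Finset V) hε)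
    · exact le_phi hε fun α _ => by simp

end Helper8.LSA
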