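import Pool.Agent.Helper8_LSA.LPA

/-!
# Module LPB: decreasing `ε`
-/

namespace Helper8.LSA

open Classical Helper43.LSA
open scoped ENNReal

variable {V : Type} [Fintype V]

theorem two_le_exp_one : (2 : ℝ) ≤ Real.exp 1 := by
  have := Real.exp_one_gt_d9
  linarith

theorem adm_dec {G : SimpleGraph V} {D : ℕ} {ε η : ℝ} (hε : 0 < ε) (hη : 0 ≤ η) (hη2 : η ≤ 1 / 2)
    {T : Finset V} {α : V → ℝ} (h : Adm G D ε T α) :
    Adm G D ((1 - η) * ε) T (fun z => α z + 2 * η * min (16 - α z) 8) := by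
  refine ⟨fun z hz => ?_, fun y θ hθ => ?_⟩
  · have h1 := h.1 z hz
    have h2 : 0 ≤ min (16 - α z) 8 := le_min (by linarith) (by norm_num)
    have h3 : min (16 - α z) 8 ≤ 16 - α z := min_le_left _ _
    have h4 : 2 * η * min (16 - α z) 8 ≤ 1 * min (16 - α z) 8 :=
      mul_le_mul_of_nonneg_right (by linarith) h2
    simp only
    linarith
  · have h1 := h.2 y θ hθ
    have h2 := h.2 y (θ - 8) (by linarith)
    have hpt : ∀ z ∈ cn G y ∩ T, max (θ - (α z + 2 * η * min (16 - α z) 8)) 0 ≤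
        (1 - 2 * η) * max (θ - α z) 0 + 2 * η * max (θ - 8 - α z) 0 := by
      intro z hz
      have hz16 := h.1 z (Finset.mem_inter.1 hz).2
      have hx0 : 0 ≤ max (θ - α z) 0 := le_max_right _ _
      have hy0 : 0 ≤ max (θ - 8 - α z) 0 := le_max_right _ _
      have hR : 0 ≤ (1 - 2 * η) * max (θ - α z) 0 + 2 * η * max (θ - 8 - α z) 0 :=
        add_nonneg (mul_nonneg (by linarith) hx0) (mul_nonneg (by linarith) hy0)
      refine max_le ?_ hR
      have hm0 : 0 ≤ min (16 - α z) 8 := le_min (by linarith) (by norm_num)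
      rcases le_total (θ - α z) 0 with hle | hle
      · have : θ - (α z + 2 * η * min (16 - α z) 8) ≤ 0 := by
          have := mul_nonneg (mul_nonneg (by norm_num : (0 : ℝ) ≤ 2) hη) hm0
          linarith
        linarith
      · rw [max_eq_left hle]
        rcases le_total (θ - α z) 8 with h8 | h8
        · have hm : θ - α z ≤ min (16 - α z) 8 := le_min (by linarith) h8
          have := mul_le_mul_of_nonneg_left hm (mul_nonneg (by norm_num : (0 : ℝ) ≤ 2) hη)
          have h9 := mul_nonneg (mul_nonneg (by norm_num : (0 : ℝ) ≤ 2) hη) hy0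
          nlinarith
        · have hm : (8 : ℝ) ≤ min (16 - α z) 8 := le_min (by linarith) le_rfl
          have := mul_le_mul_of_nonneg_left hm (mul_nonneg (by norm_num : (0 : ℝ) ≤ 2) hη)
          rw [max_eq_left (by linarith : 0 ≤ θ - 8 - α z)]
          nlinarith
    refine (Finset.sum_le_sum hpt).trans ?_
    rw [Finset.sum_add_distrib, ← Finset.mul_sum, ← Finset.mul_sum]
    have he : Real.exp (θ / 8) = Real.exp 1 * Real.exp ((θ - 8) / 8) := by
      rw [← Real.exp_add]
      congr 1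
      ring
    set E := Real.exp ((θ - 8) / 8) with hE
    have hEpos : 0 < E := Real.exp_pos _
    set S1 := ∑ z ∈ cn G y ∩ T, max (θ - α z) 0
    set S2 := ∑ z ∈ cn G y ∩ T, max (θ - 8 - α z) 0
    have hD0 : (0 : ℝ) ≤ ε * D := by positivity
    have e1 : (1 - 2 * η) * S1 ≤ (1 - 2 * η) * (8 * (ε * D) * Real.exp (θ / 8)) :=
      mul_le_mul_of_nonneg_left h1 (by linarith)
    have e2 : 2 * η * S2 ≤ 2 * η * (8 * (ε * D) * E) :=
      mul_le_mul_of_nonneg_left h2 (by positivity)
    have e3 : 2 * E ≤ Real.exp 1 * E := mul_le_mul_of_nonneg_right two_le_exp_one hEpos.le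
    have e4 : 0 ≤ η * (ε * D) * (Real.exp 1 * E - 2 * E) :=
      mul_nonneg (mul_nonneg hη hD0) (by linarith)
    rw [he] at e1 ⊢
    nlinarith [e1, e2, e4]

theorem lpb : LpbStmt := by
  intro V _ G D hD hreg ε η hε hη hη2 T U hTU
  have hη1 : 0 ≤ (1 - η) * ε := mul_nonneg (by linarith) hε.le
  have hDR : (1 : ℝ) ≤ D := by exact_mod_cast hD
  have hD0 : (0 : ℝ) < D := by linarith
  set B := (32 / 3) * Real.exp 2 * ε * (∑ u ∈ T ∪ Uᶜ, mm G D ε T u) +
          8 * ((crowd G D T U).card : ℝ) with hB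
  suffices hS : Phi G D ((1 - η) * ε) T - 2 * η * B ≤ Phi G D ε T by
    linarith
  refine le_phi hε.le fun α hα => ?_
  have h1 := phi_le_of_adm (adm_dec hε hη hη2 hα)
  rw [Finset.sum_add_distrib, ← Finset.mul_sum] at h1
  have hm0 : ∀ z ∈ T, 0 ≤ min (16 - α z) 8 := fun z hz =>
    le_min (by have := hα.1 z hz; linarith) (by norm_num)
  suffices hmain : ∑ z ∈ T, min (16 - α z) 8 ≤ B by
    have := mul_le_mul_of_nonneg_left hmain (by positivity : 0 ≤ 2 * η)
    linarith
  -- crowded and non crowded points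
  have hsplit := Finset.sum_filter_add_sum_filter_not T
    (fun z => D < 4 * (nbr G z ∩ (U \ T)).card) (fun z => min (16 - α z) 8)
  rw [← hsplit]
  have hcr : ∑ z ∈ T with D < 4 * (nbr G z ∩ (U \ T)).card, min (16 - α z) 8 ≤
      8 * ((crowd G D T U).card : ℝ) := by
    have : T.filter (fun z => D < 4 * (nbr G z ∩ (U \ T)).card) = crowd G D T U := rfl
    rw [this]
    calc ∑ z ∈ crowd G D T U, min (16 - α z) 8 ≤ ∑ z ∈ crowd G D T U, (8 : ℝ) :=
          Finset.sum_le_sum fun z _ => min_le_right _ _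
      _ = 8 * ((crowd G D T U).card : ℝ) := by rw [Finset.sum_const, nsmul_eq_mul, mul_comm]
  -- inner sums
  have hinner : ∀ u : V, ∑ z ∈ cn G u ∩ T, min (16 - α z) 8 ≤
      8 * Real.exp 2 * ε * D * mm G D ε T u := by
    intro u
    have hεD : 0 < ε * D := by positivity
    have hexp : (1 : ℝ) ≤ Real.exp 2 := Real.one_le_exp (by norm_num)
    unfold mm
    rcases le_total (1 : ℝ) (((cn G u ∩ T).card : ℝ) / (ε * D)) with h | h
    · rw [min_eq_left h, mul_one]
      have h2 := hα.2 u 16 le_rfl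
      have h3 : (16 : ℝ) / 8 = 2 := by norm_num
      rw [h3] at h2
      have h4 : ∑ z ∈ cn G u ∩ T, min (16 - α z) 8 ≤ ∑ z ∈ cn G u ∩ T, max (16 - α z) 0 :=
        Finset.sum_le_sum fun z _ => (min_le_left _ _).trans (le_max_left _ _)
      have h5 : 8 * (ε * D) * Real.exp 2 = 8 * Real.exp 2 * ε * D := by ring
      linarith
    · rw [min_eq_right h]
      have h4 : ∑ z ∈ cn G u ∩ T, min (16 - α z) 8 ≤ ∑ z ∈ cn G u ∩ T, (8 : ℝ) :=
        Finset.sum_le_sum fun z _ => min_le_right _ _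
      rw [Finset.sum_const, nsmul_eq_mul] at h4
      refine h4.trans ?_
      have h5 : 8 * Real.exp 2 * ε * D * (((cn G u ∩ T).card : ℝ) / (ε * D)) =
          8 * Real.exp 2 * ((cn G u ∩ T).card : ℝ) := by
        field_simp
      rw [h5]
      have h6 : (0 : ℝ) ≤ ((cn G u ∩ T).card : ℝ) := Nat.cast_nonneg _
      nlinarith
  -- non crowded points
  have hnc : ∑ z ∈ T with ¬ D < 4 * (nbr G z ∩ (U \ T)).card, min (16 - α z) 8 ≤
      (32 / 3) * Real.exp 2 * ε * (∑ u ∈ T ∪ Uᶜ, mm G D ε T u) := by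
    have hcard : ∀ z ∈ T, ¬ D < 4 * (nbr G z ∩ (U \ T)).card →
        (3 / 4 : ℝ) * D ≤ ((cn G z ∩ (T ∪ Uᶜ)).card : ℝ) := by
      intro z hz hnc
      have e1 : (cn G z ∩ (T ∪ Uᶜ)).card + (nbr G z ∩ (U \ T)).card = D + 1 := by
        rw [← card_cn hreg z, ← Finset.card_union_of_disjoint]
        · congr 1
          ext w
          simp only [Finset.mem_union, Finset.mem_inter, Finset.mem_compl, Finset.mem_sdiff,
            mem_cn, mem_nbr]
          constructor
          · rintro (⟨h, _⟩ | ⟨h, _⟩)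
            · exact h
            · exact Or.inr h
          · intro h
            by_cases hwT : w ∈ T
            · exact Or.inl ⟨h, Or.inl hwT⟩
            · by_cases hwU : w ∈ U
              · right
                refine ⟨?_, hwU, hwT⟩
                rcases h with h | h
                · subst h; exact (hwT hz).elim
                · exact h
              · exact Or.inl ⟨h, Or.inr hwU⟩
        · rw [Finset.disjoint_left]
          intro w hw1 hw2
          simp only [Finset.mem_union, Finset.mem_inter, Finset.mem_compl,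
            Finset.mem_sdiff] at hw1 hw2
          rcases hw1.2 with h | h
          · exact hw2.2.2 h
          · exact h hw2.2.1
      have e2 : 4 * (nbr G z ∩ (U \ T)).card ≤ D := not_lt.1 hnc
      have e1' : ((cn G z ∩ (T ∪ Uᶜ)).card : ℝ) + ((nbr G z ∩ (U \ T)).card : ℝ) = D + 1 := by
        exact_mod_cast e1
      have e2' : 4 * ((nbr G z ∩ (U \ T)).card : ℝ) ≤ D := by exact_mod_cast e2
      linarith
    have h2 : ∑ z ∈ T with ¬ D < 4 * (nbr G z ∩ (U \ T)).card, min (16 - α z) 8 ≤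
        (4 / (3 * D)) * ∑ z ∈ T, ∑ u ∈ cn G z ∩ (T ∪ Uᶜ), min (16 - α z) 8 := by
      rw [Finset.mul_sum]
      have h3 : ∑ z ∈ T with ¬ D < 4 * (nbr G z ∩ (U \ T)).card, min (16 - α z) 8 ≤
          ∑ z ∈ T with ¬ D < 4 * (nbr G z ∩ (U \ T)).card,
            (4 / (3 * D)) * ∑ u ∈ cn G z ∩ (T ∪ Uᶜ), min (16 - α z) 8 := by
        refine Finset.sum_le_sum fun z hz => ?_
        rw [Finset.mem_filter] at hz
        rw [Finset.sum_const, nsmul_eq_mul]
        have h4 := hcard z hz.1 hz.2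
        have h5 := mul_le_mul_of_nonneg_right h4 (hm0 z hz.1)
        have h6 : (4 / (3 * D) : ℝ) * ((3 / 4 : ℝ) * D * min (16 - α z) 8) =
            min (16 - α z) 8 := by field_simp
        calc min (16 - α z) 8 = (4 / (3 * D) : ℝ) * ((3 / 4 : ℝ) * D * min (16 - α z) 8) := h6.symm
          _ ≤ (4 / (3 * D)) * (((cn G z ∩ (T ∪ Uᶜ)).card : ℝ) * min (16 - α z) 8) :=
            mul_le_mul_of_nonneg_left h5 (by positivity)
      refine h3.trans ?_
      refine Finset.sum_le_sum_of_subset_of_nonneg (Finset.filter_subset _ _) fun z hz _ => ?_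
      refine mul_nonneg (by positivity) (Finset.sum_nonneg fun _ _ => hm0 z hz)
    have h3 : ∑ z ∈ T, ∑ u ∈ cn G z ∩ (T ∪ Uᶜ), min (16 - α z) 8 =
        ∑ u ∈ T ∪ Uᶜ, ∑ z ∈ cn G u ∩ T, min (16 - α z) 8 := by
      refine Finset.sum_comm' fun z u => ?_
      simp only [Finset.mem_inter]
      rw [mem_cn_comm (v := z) (w := u)]
      tauto
    rw [h3] at h2
    have h4 : ∑ u ∈ T ∪ Uᶜ, ∑ z ∈ cn G u ∩ T, min (16 - α z) 8 ≤
        8 * Real.exp 2 * ε * D * ∑ u ∈ T ∪ Uᶜ, mm G D ε T u := by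
      rw [Finset.mul_sum]
      exact Finset.sum_le_sum fun u _ => hinner u
    have h5 := mul_le_mul_of_nonneg_left h4 (by positivity : (0 : ℝ) ≤ 4 / (3 * D))
    refine h2.trans (h5.trans (le_of_eq ?_))
    field_simp
    ring
  rw [hB]
  linarith

end Helper8.LSA
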